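import Pool.Agent.H426R3.SQ.Cov
import Pool.Agent.H256R2.SC.L
import Pool.Agent.H256R2.SC.G3
import Pool.Agent.H256R2.SC.G1

set_option autoImplicit false

/-! # A criterion for prime-free translates of arbitrary finite sets of integers

If a finite set `S` of at most `c log X` integers of size at most `2 exp (log² X)` is given, then every
interval `(M, M + X]` contains `n`, in a prescribed class modulo `P` (`P ≤ X ^ (3/20)` with prime factors
at most `log³ X`), such that all `n + z`, `z ∈ S`, have a prime factor at most `exp ((log X) ^ (1/20))`.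
The covering sieve `H426R3.SQ.covering_hit` is used with the densities `1 / p` if `z` is alone in its
class modulo `p`, and `0` otherwise. -/

namespace Pool.Agent.NH74.AT

open Finset Filter
open Pool.Agent.H426R3.SQ (SP covering_hit)
open Pool.Agent.H256R2.SC (PS A_lower)
open Pool.Agent.H256R2.SC.LG (count_Ioc)

open scoped Classical

/-- counting the integers of an interval in a class mod `P` and a class mod `q`
(copied from `Pool.Agent.H378R2.PS.Main`, helper378) -/
theorem count_two (A B : ℤ) (hAB : A ≤ B) (P q : ℕ) (hP : 0 < P) (hq : 0 < q)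
    (hc : Nat.Coprime P q) (b r : ℤ) :
    |((((Ioc A B).filter (fun x => (P : ℤ) ∣ x - b)).filter (fun x => (q : ℤ) ∣ x - r)).card : ℝ) -
      (((B : ℝ) - A) / P) / q| ≤ 1 := by
  have hcop : IsCoprime (P : ℤ) (q : ℤ) := Nat.isCoprime_iff_coprime.mpr hc
  obtain ⟨u, v, huv⟩ := hcop
  set c : ℤ := b + P * u * (r - b) with hcdef
  have h1 : (((Ioc A B).filter (fun x => (P : ℤ) ∣ x - b)).filter (fun x => (q : ℤ) ∣ x - r)) =
      (Ioc A B).filter (fun x => ((P * q : ℕ) : ℤ) ∣ x - c) := by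
    rw [Finset.filter_filter]
    apply Finset.filter_congr
    intro x _
    push_cast
    constructor
    · rintro ⟨h2, h3⟩
      apply IsCoprime.mul_dvd (Nat.isCoprime_iff_coprime.mpr hc)
      · have e : x - c = (x - b) - P * (u * (r - b)) := by rw [hcdef]; ring
        rw [e]
        exact dvd_sub h2 (dvd_mul_right _ _)
      · have e : x - c = (x - r) + q * (v * (r - b)) := by
          rw [hcdef]
          linear_combination (-(r - b)) * huv
        rw [e]
        exact dvd_add h3 (dvd_mul_right _ _)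
    · intro h2
      have hP' : (P : ℤ) ∣ x - c := (dvd_mul_right _ _).trans h2
      have hq' : (q : ℤ) ∣ x - c := (dvd_mul_left _ _).trans h2
      constructor
      · have e : x - b = (x - c) + P * (u * (r - b)) := by rw [hcdef]; ring
        rw [e]
        exact dvd_add hP' (dvd_mul_right _ _)
      · have e : x - r = (x - c) - q * (v * (r - b)) := by
          rw [hcdef]
          linear_combination (r - b) * huv
        rw [e]
        exact dvd_sub hq' (dvd_mul_right _ _)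
  rw [h1]
  have h2 := count_Ioc A B hAB (P * q) (Nat.mul_pos hP hq) c
  have e : (((B : ℝ) - A) / P) / q = ((B : ℝ) - A) / ((P * q : ℕ) : ℝ) := by
    push_cast
    rw [div_div]
  rw [e]
  exact h2

theorem toNat_mod (a : ℤ) (p : ℕ) (hp : 0 < p) : (p : ℤ) ∣ (((a % (p : ℤ)).toNat : ℕ) : ℤ) - a := by
  have h0 : (0 : ℤ) ≤ a % (p : ℤ) := Int.emod_nonneg _ (by exact_mod_cast hp.ne')
  rw [Int.toNat_of_nonneg h0]
  have := Int.emod_add_mul_ediv a (p : ℤ)
  exact ⟨-(a / p), by linarith⟩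

/-- `z` is alone in its class modulo `p` -/
def Alone (S : Finset ℤ) (p : ℕ) (z : ℤ) : Prop := ∀ w ∈ S, w ≠ z → ¬ (p : ℤ) ∣ z - w

noncomputable def gg (S : Finset ℤ) (p : ℕ) (z : ℤ) : ℝ :=
  if Alone S p z then 1 / (p : ℝ) else 0

def Hit (S : Finset ℤ) (p : ℕ) (a : ℤ) (z : ℤ) : Prop := (p : ℤ) ∣ a + z ∧ Alone S p z

lemma gg_nonneg (S : Finset ℤ) (p : ℕ) (z : ℤ) : 0 ≤ gg S p z := by
  unfold gg
  split_ifs <;> positivity

lemma gg_le (S : Finset ℤ) (p : ℕ) (z : ℤ) : gg S p z ≤ 2 / (p : ℝ) := by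
  unfold gg
  split_ifs
  · apply div_le_div_of_nonneg_right (by norm_num) (Nat.cast_nonneg _)
  · positivity

lemma hit_unique {S : Finset ℤ} {p : ℕ} {a k l : ℤ} (hk : k ∈ S) (hl : l ∈ S)
    (h1 : Hit S p a k) (h2 : Hit S p a l) : k = l := by
  by_contra hne
  apply h1.2 l hl (fun h => hne h.symm)
  have : k - l = (a + k) - (a + l) := by ring
  rw [this]
  exact dvd_sub h1.1 h2.1

/-- the primes at which `z` is not alone -/
noncomputable def bad (S : Finset ℤ) (Q : Finset ℕ) (z : ℤ) : Finset ℕ :=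
  Q.filter (fun p => ¬ Alone S p z)

lemma card_bad (S : Finset ℤ) (Q : Finset ℕ) (hQ : ∀ p ∈ Q, p.Prime) (z : ℤ) (hz : z ∈ S) (E : ℝ)
    (hE : 0 ≤ E) (hS : ∀ w ∈ S, |(w : ℝ)| ≤ 2 * Real.exp E) :
    ((bad S Q z).card : ℝ) ≤ S.card * (2 * (E + 2)) := by
  have hsub : bad S Q z ⊆ (S.erase z).biUnion (fun w => (z - w).natAbs.primeFactors) := by
    intro p hp
    unfold bad at hp
    rw [mem_filter] at hp
    obtain ⟨hpQ, hna⟩ := hp
    unfold Alone at hna
    push Not at hna
    obtain ⟨w, hw, hwz, hd⟩ := hna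
    rw [mem_biUnion]
    refine ⟨w, mem_erase.2 ⟨hwz, hw⟩, ?_⟩
    rw [Nat.mem_primeFactors]
    refine ⟨hQ p hpQ, Int.natCast_dvd.1 hd, ?_⟩
    rw [Int.natAbs_ne_zero]
    intro h0
    exact hwz (by linarith)
  have h1 : ((bad S Q z).card : ℝ) ≤ ∑ w ∈ S.erase z, ((z - w).natAbs.primeFactors.card : ℝ) := by
    have := (card_le_card hsub).trans card_biUnion_le
    exact_mod_cast this
  refine h1.trans ?_
  have h2 : ∀ w ∈ S.erase z, ((z - w).natAbs.primeFactors.card : ℝ) ≤ 2 * (E + 2) := by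
    intro w hw
    rw [mem_erase] at hw
    have hne : (z - w).natAbs ≠ 0 := by
      rw [Int.natAbs_ne_zero]
      intro h0
      exact hw.1 (by linarith)
    have h3 := Pool.Agent.H256R2.SC.G3.card_primeFactors_le _ hne
    refine h3.trans ?_
    have h4 : (((z - w).natAbs : ℕ) : ℝ) ≤ 4 * Real.exp E := by
      rw [Nat.cast_natAbs]
      push_cast
      have h5 := hS z hz
      have h6 := hS w hw.2
      calc |(z : ℝ) - w| ≤ |(z : ℝ)| + |(w : ℝ)| := abs_sub _ _
        _ ≤ 4 * Real.exp E := by linarith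
    have h5 : (0 : ℝ) < ((z - w).natAbs : ℕ) := by exact_mod_cast Nat.pos_of_ne_zero hne
    have h6 : Real.log ((z - w).natAbs : ℕ) ≤ E + 2 := by
      refine (Real.log_le_log h5 h4).trans ?_
      rw [Real.log_mul (by norm_num) (Real.exp_pos _).ne', Real.log_exp]
      have h7 : Real.log 4 ≤ 2 := by
        have h8 : Real.log 4 = 2 * Real.log 2 := by
          rw [show (4 : ℝ) = 2 ^ (2 : ℕ) by norm_num, Real.log_pow]; norm_num
        have := Real.log_two_lt_d9
        linarith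
      linarith
    linarith
  refine (sum_le_sum h2).trans ?_
  rw [sum_const, nsmul_eq_mul]
  apply mul_le_mul_of_nonneg_right _ (by positivity)
  exact_mod_cast card_le_card (erase_subset _ _)

/-- the sum condition of the covering theorem -/
lemma sum_cond (c₂ : ℝ) (hA : ∀ (y₁ z x : ℝ) (B : Finset ℕ), 3 ≤ y₁ → y₁ ≤ x → x ≤ z →
    2 * (B.card : ℝ) ≤ y₁ →
    c₂ * Real.log x / Real.log y₁ - 1 ≤
      ∑ s ∈ ((PS y₁ z B).powerset.filter (fun s : Finset ℕ => s.Nonempty ∧ ∏ p ∈ s, (p : ℝ) ≤ x)),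
        ∏ p ∈ s, 1 / (p : ℝ))
    (L : ℝ) (hL : 3 ≤ L) (S : Finset ℤ) (hS : ∀ w ∈ S, |(w : ℝ)| ≤ 2 * Real.exp (L ^ 2))
    (hc : (S.card : ℝ) ≤ 1 / 8 * L) (k : ℤ) (hk : k ∈ S) (z x : ℝ) (hx : L ^ 3 ≤ x) (hxz : x ≤ z) :
    c₂ / 3 * Real.log x / Real.log L - 1 ≤
      ∑ s ∈ ((SP (L ^ 3) z ∅).powerset.filter
          (fun s : Finset ℕ => s.Nonempty ∧ ∏ p ∈ s, (p : ℝ) ≤ x)), ∏ p ∈ s, gg S p k := by
  have hQ : ∀ p ∈ SP (L ^ 3) z ∅, p.Prime := by
    intro p hp
    unfold SP at hp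
    rw [mem_filter] at hp
    exact hp.2.1
  set B := bad S (SP (L ^ 3) z ∅) k with hB
  have hL0 : 0 < L := by linarith
  have h1 : ((B.card : ℕ) : ℝ) ≤ S.card * (2 * (L ^ 2 + 2)) :=
    card_bad S _ hQ k hk (L ^ 2) (by positivity) hS
  have h2 : 2 * (B.card : ℝ) ≤ L ^ 3 := by
    have h3 : (S.card : ℝ) * (2 * (L ^ 2 + 2)) ≤ 1 / 8 * L * (2 * (L ^ 2 + 2)) :=
      mul_le_mul_of_nonneg_right hc (by positivity)
    have h4 : 2 * (1 / 8 * L * (2 * (L ^ 2 + 2))) ≤ L ^ 3 := by nlinarith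
    linarith
  have h3 : (3 : ℝ) ≤ L ^ 3 := by nlinarith
  have h4 := hA (L ^ 3) z x B h3 hx hxz h2
  have h5 : Real.log (L ^ 3) = 3 * Real.log L := by rw [Real.log_pow]; norm_num
  rw [h5] at h4
  have h6 : c₂ / 3 * Real.log x / Real.log L = c₂ * Real.log x / (3 * Real.log L) := by
    have : 0 < Real.log L := Real.log_pos (by linarith)
    field_simp
  rw [h6]
  refine h4.trans ?_
  have hPS : PS (L ^ 3) z B ⊆ SP (L ^ 3) z ∅ := by
    intro p hp
    unfold PS at hp
    unfold SP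
    rw [mem_filter] at hp ⊢
    exact ⟨hp.1, hp.2.1, hp.2.2.1, by simp⟩
  have hgood : ∀ p ∈ PS (L ^ 3) z B, Alone S p k := by
    intro p hp
    by_contra hna
    have hpSP := hPS hp
    have : p ∈ B := by
      rw [hB]
      unfold bad
      rw [mem_filter]
      exact ⟨hpSP, hna⟩
    unfold PS at hp
    rw [mem_filter] at hp
    exact hp.2.2.2 this
  calc ∑ s ∈ ((PS (L ^ 3) z B).powerset.filter
          (fun s : Finset ℕ => s.Nonempty ∧ ∏ p ∈ s, (p : ℝ) ≤ x)), ∏ p ∈ s, 1 / (p : ℝ)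
      = ∑ s ∈ ((PS (L ^ 3) z B).powerset.filter
          (fun s : Finset ℕ => s.Nonempty ∧ ∏ p ∈ s, (p : ℝ) ≤ x)), ∏ p ∈ s, gg S p k := by
        apply sum_congr rfl
        intro s hs
        rw [mem_filter, mem_powerset] at hs
        apply prod_congr rfl
        intro p hp
        unfold gg
        rw [if_pos (hgood p (hs.1 hp))]
    _ ≤ _ := by
        apply sum_le_sum_of_subset_of_nonneg
        · intro s hs
          rw [mem_filter, mem_powerset] at hs ⊢
          exact ⟨hs.1.trans hPS, hs.2⟩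
        · intro s _ _
          exact prod_nonneg (fun p _ => gg_nonneg S p k)

/-- products of distinct primes dividing an integer -/
lemma prod_dvd_iff (T : Finset ℕ) (hT : ∀ p ∈ T, p.Prime) (a : ℤ) :
    (((∏ p ∈ T, p : ℕ) : ℕ) : ℤ) ∣ a ↔ ∀ p ∈ T, (p : ℤ) ∣ a := by
  constructor
  · intro h p hp
    exact (Int.natCast_dvd_natCast.2 (dvd_prod_of_mem _ hp)).trans h
  · intro h
    rw [Int.natCast_dvd]
    apply Finset.prod_primes_dvd
    · intro p hp
      exact (hT p hp).prime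
    · intro p hp
      exact Int.natCast_dvd.1 (h p hp)

end Pool.Agent.NH74.AT
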