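import Pool.Agent.NH74.AT.Crit

set_option autoImplicit false

namespace Pool.Agent.NH74.AT

open Finset Filter
open Pool.Agent.H426R3.SQ (SP covering_hit)
open Pool.Agent.H256R2.SC (PS A_lower)

open scoped Classical

/-- the integers of the interval in the class modulo `P` which are not close to some `-z` -/
noncomputable def AA (A B : ℤ) (P : ℕ) (b0 : ℤ) (Z : Finset ℤ) (W : ℝ) : Finset ℤ :=
  ((Ioc A B).filter (fun x => (P : ℤ) ∣ x - b0)).filter (fun x => ∀ z ∈ Z, W < |((x + z : ℤ) : ℝ)|)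

/-- the number of the integers excluded -/
lemma excl_card (I : Finset ℤ) (Z : Finset ℤ) (W : ℝ) (hW : 0 ≤ W) :
    ((I.filter (fun x => ¬ ∀ z ∈ Z, W < |((x + z : ℤ) : ℝ)|)).card : ℝ) ≤ Z.card * (2 * W + 1) := by
  have hsub : I.filter (fun x => ¬ ∀ z ∈ Z, W < |((x + z : ℤ) : ℝ)|) ⊆
      Z.biUnion (fun z => Icc (-z - ⌊W⌋) (-z + ⌊W⌋)) := by
    intro x hx
    rw [mem_filter] at hx
    obtain ⟨_, h⟩ := hx
    push Not at h
    obtain ⟨z, hz, hzW⟩ := h
    rw [mem_biUnion]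
    refine ⟨z, hz, ?_⟩
    rw [mem_Icc]
    have h1 := abs_le.1 hzW
    have h2 : x + z ≤ ⌊W⌋ := Int.le_floor.2 h1.2
    have h3 : -(x + z) ≤ ⌊W⌋ := Int.le_floor.2 (by push_cast at h1 ⊢; linarith [h1.1])
    constructor <;> linarith
  have h1 := (card_le_card hsub).trans card_biUnion_le
  have h2 : ((∑ z ∈ Z, (Icc (-z - ⌊W⌋) (-z + ⌊W⌋)).card : ℕ) : ℝ) = ∑ z ∈ Z, ((Icc (-z - ⌊W⌋) (-z + ⌊W⌋)).card : ℝ) := by
    push_cast
    rfl
  calc _ ≤ ((∑ z ∈ Z, (Icc (-z - ⌊W⌋) (-z + ⌊W⌋)).card : ℕ) : ℝ) := by exact_mod_cast h1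
    _ = ∑ z ∈ Z, ((Icc (-z - ⌊W⌋) (-z + ⌊W⌋)).card : ℝ) := h2
    _ ≤ ∑ z ∈ Z, (2 * W + 1) := by
        apply sum_le_sum
        intro z _
        rw [Int.card_Icc]
        have h3 : (0 : ℤ) ≤ ⌊W⌋ := Int.floor_nonneg.2 hW
        have h4 : ((-z + ⌊W⌋ + 1 - (-z - ⌊W⌋)).toNat : ℤ) = 2 * ⌊W⌋ + 1 := by
          rw [Int.toNat_of_nonneg (by linarith)]
          ring
        have h5 : (((-z + ⌊W⌋ + 1 - (-z - ⌊W⌋)).toNat : ℕ) : ℝ) = 2 * (⌊W⌋ : ℝ) + 1 := by
          exact_mod_cast h4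
        rw [h5]
        have := Int.floor_le W
        linarith
    _ = _ := by rw [sum_const, nsmul_eq_mul]

/-- the distribution of the hits -/
lemma distr (S : Finset ℤ) (A B : ℤ) (hAB : A ≤ B) (P : ℕ) (hP : 0 < P) (b0 : ℤ) (Z : Finset ℤ) (W : ℝ)
    (hW : 0 ≤ W) (T : Finset ℕ) (hT : ∀ p ∈ T, p.Prime) (hcop : ∀ p ∈ T, ¬ p ∣ P) (s : ℕ → ℤ) :
    |(((AA A B P b0 Z W).filter (fun a => ∀ p ∈ T, Hit S p a (s p))).card : ℝ) -
      (((B : ℝ) - A) / P) * ∏ p ∈ T, gg S p (s p)| ≤ 1 + Z.card * (2 * W + 1) := by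
  have hnn : (0 : ℝ) ≤ Z.card * (2 * W + 1) := by positivity
  by_cases hall : ∀ p ∈ T, Alone S p (s p)
  · -- the class
    obtain ⟨e, he⟩ : ∃ e : ℕ → ℕ, ∀ p, e p = ((s p) % (p : ℤ)).toNat := ⟨_, fun _ => rfl⟩
    obtain ⟨r, -, hr⟩ := Pool.Agent.H256R2.SC.G3.crt_small T hT e
    have hkey : ∀ a : ℤ, (∀ p ∈ T, Hit S p a (s p)) ↔ (((∏ p ∈ T, p : ℕ) : ℕ) : ℤ) ∣ a - r := by
      intro a
      rw [prod_dvd_iff T hT]
      constructor
      · intro h p hp
        have h1 := (h p hp).1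
        have h2 : (p : ℤ) ∣ (r : ℤ) + e p := by exact_mod_cast hr p hp
        have h3 : (p : ℤ) ∣ (e p : ℤ) - s p := by
          rw [he]
          exact toNat_mod _ _ (hT p hp).pos
        have h4 : a - r = (a + s p) - ((r : ℤ) + e p) + ((e p : ℤ) - s p) := by ring
        rw [h4]
        exact dvd_add (dvd_sub h1 h2) h3
      · intro h p hp
        refine ⟨?_, hall p hp⟩
        have h1 := h p hp
        have h2 : (p : ℤ) ∣ (r : ℤ) + e p := by exact_mod_cast hr p hp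
        have h3 : (p : ℤ) ∣ (e p : ℤ) - s p := by
          rw [he]
          exact toNat_mod _ _ (hT p hp).pos
        have h4 : a + s p = (a - r) + ((r : ℤ) + e p) - ((e p : ℤ) - s p) := by ring
        rw [h4]
        exact dvd_sub (dvd_add h1 h2) h3
    have hq : 0 < ∏ p ∈ T, p := prod_pos (fun p hp => (hT p hp).pos)
    have hc : Nat.Coprime P (∏ p ∈ T, p) := by
      apply Nat.Coprime.prod_right
      intro p hp
      exact ((Nat.Prime.coprime_iff_not_dvd (hT p hp)).2 (hcop p hp)).symm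
    have h1 := count_two A B hAB P (∏ p ∈ T, p) hP hq hc b0 r
    have hg : ∏ p ∈ T, gg S p (s p) = 1 / ((∏ p ∈ T, p : ℕ) : ℝ) := by
      push_cast
      rw [one_div, ← prod_inv_distrib]
      apply prod_congr rfl
      intro p hp
      unfold gg
      rw [if_pos (hall p hp), one_div]
    rw [hg, mul_one_div]
    -- compare the two sets
    set I := ((Ioc A B).filter (fun x => (P : ℤ) ∣ x - b0)).filter
      (fun x => (((∏ p ∈ T, p : ℕ) : ℕ) : ℤ) ∣ x - r) with hI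
    have h2 : (AA A B P b0 Z W).filter (fun a => ∀ p ∈ T, Hit S p a (s p)) =
        I.filter (fun x => ∀ z ∈ Z, W < |((x + z : ℤ) : ℝ)|) := by
      unfold AA
      rw [hI]
      ext x
      simp only [mem_filter]
      rw [hkey x]
      tauto
    have h3 := card_filter_add_card_filter_not (s := I) (fun x => ∀ z ∈ Z, W < |((x + z : ℤ) : ℝ)|)
    have h4 := excl_card I Z W hW
    rw [h2]
    have h5 : (((I.filter (fun x => ∀ z ∈ Z, W < |((x + z : ℤ) : ℝ)|)).card : ℕ) : ℝ) +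
        ((I.filter (fun x => ¬ ∀ z ∈ Z, W < |((x + z : ℤ) : ℝ)|)).card : ℝ) = I.card := by
      exact_mod_cast h3
    have h6 : (0 : ℝ) ≤ ((I.filter (fun x => ¬ ∀ z ∈ Z, W < |((x + z : ℤ) : ℝ)|)).card : ℝ) := Nat.cast_nonneg _
    have h7 := abs_le.1 h1
    rw [abs_le]
    constructor <;> linarith [h7.1, h7.2]
  · push Not at hall
    obtain ⟨p, hp, hna⟩ := hall
    have h1 : (AA A B P b0 Z W).filter (fun a => ∀ p ∈ T, Hit S p a (s p)) = ∅ := by
      rw [filter_eq_empty_iff]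
      intro a _ h
      exact hna (h p hp).2
    have h2 : ∏ p ∈ T, gg S p (s p) = 0 := by
      apply prod_eq_zero hp
      unfold gg
      rw [if_neg hna]
    rw [h1, h2]
    simp only [card_empty, Nat.cast_zero, mul_zero, sub_zero, abs_zero]
    linarith

end Pool.Agent.NH74.AT
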