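import Pool.Agent.NH74.AT.Crit2

set_option autoImplicit false

namespace Pool.Agent.NH74.AT

open Finset Filter
open Pool.Agent.H426R3.SQ (SP covering_hit)
open Pool.Agent.H256R2.SC (PS A_lower)

open scoped Classical

lemma err_bound (L : ℝ) (hL : 10000 ≤ L) :
    1 + L ^ 2 * (2 * Real.exp (L ^ (1 / 20 : ℝ)) + 1) ≤ Real.exp (1 / 10 * L) := by
  have hL0 : 0 < L := by linarith
  have h1 : L ^ (1 / 20 : ℝ) ≤ L / 40 := by
    have h2 : L ^ (1 / 20 : ℝ) ≤ L ^ (1 / 2 : ℝ) :=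
      Real.rpow_le_rpow_of_exponent_le (by linarith) (by norm_num)
    rw [← Real.sqrt_eq_rpow] at h2
    have h3 : 100 ≤ Real.sqrt L := by
      rw [show (100 : ℝ) = Real.sqrt (100 ^ 2) by rw [Real.sqrt_sq (by norm_num)]]
      exact Real.sqrt_le_sqrt (by norm_num; linarith)
    have h4 : Real.sqrt L * Real.sqrt L = L := Real.mul_self_sqrt hL0.le
    nlinarith
  have h2 : Real.exp (L ^ (1 / 20 : ℝ)) ≤ Real.exp (L / 40) := Real.exp_le_exp.2 h1
  have h3 : 1 ≤ Real.exp (L / 40) := Real.one_le_exp (by positivity)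
  have h4 : L / 120 ≤ Real.exp (L / 120) := by linarith [Real.add_one_le_exp (L / 120)]
  have h5 : (L / 120) ^ 9 ≤ Real.exp (3 * L / 40) := by
    have : Real.exp (3 * L / 40) = Real.exp (L / 120) ^ 9 := by
      rw [← Real.exp_nat_mul]
      congr 1
      push_cast
      ring
    rw [this]
    exact pow_le_pow_left₀ (by positivity) h4 9
  have h6 : 4 * L ^ 2 ≤ (L / 120) ^ 9 := by
    have h7 : (10000 : ℝ) ^ 7 ≤ L ^ 7 := pow_le_pow_left₀ (by norm_num) hL 7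
    have h8 : (L / 120) ^ 9 = L ^ 2 * (L ^ 7 / 120 ^ 9) := by ring
    rw [h8]
    have h9 : (4 : ℝ) ≤ L ^ 7 / 120 ^ 9 := by
      rw [le_div_iff₀ (by positivity)]
      refine le_trans ?_ h7
      norm_num
    nlinarith [sq_nonneg L]
  have h7 : Real.exp (1 / 10 * L) = Real.exp (L / 40) * Real.exp (3 * L / 40) := by
    rw [← Real.exp_add]
    congr 1
    ring
  have h8 : 1 ≤ L ^ 2 := by nlinarith
  calc 1 + L ^ 2 * (2 * Real.exp (L ^ (1 / 20 : ℝ)) + 1)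
      ≤ L ^ 2 * Real.exp (L / 40) + L ^ 2 * (2 * Real.exp (L / 40) + Real.exp (L / 40)) := by
        apply add_le_add
        · nlinarith
        · apply mul_le_mul_of_nonneg_left _ (by positivity)
          linarith
    _ = Real.exp (L / 40) * (4 * L ^ 2) := by ring
    _ ≤ Real.exp (L / 40) * Real.exp (3 * L / 40) := by
        apply mul_le_mul_of_nonneg_left _ (Real.exp_pos _).le
        linarith
    _ = _ := h7.symm

theorem crit : ∃ c : ℝ, 0 < c ∧ ∃ X₀ : ℝ, ∀ X : ℝ, X₀ ≤ X → ∀ M : ℝ, ∀ (P : ℕ) (b0 : ℤ), 0 < P →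
    (P : ℝ) ≤ X ^ (3 / 20 : ℝ) → (∀ p : ℕ, p.Prime → p ∣ P → (p : ℝ) ≤ (Real.log X) ^ 3) →
    ∀ S Z : Finset ℤ, (S.card : ℝ) ≤ c * Real.log X →
    (∀ z ∈ S, |(z : ℝ)| ≤ 2 * Real.exp ((Real.log X) ^ 2)) →
    (Z.card : ℝ) ≤ (Real.log X) ^ 2 →
    ∃ n : ℤ, M < n ∧ (n : ℝ) ≤ M + X ∧ (P : ℤ) ∣ n - b0 ∧
      (∀ z ∈ Z, Real.exp ((Real.log X) ^ (1 / 20 : ℝ)) < |((n + z : ℤ) : ℝ)|) ∧
      ∀ z ∈ S, ∃ p : ℕ, p.Prime ∧ (p : ℝ) ≤ Real.exp ((Real.log X) ^ (1 / 20 : ℝ)) ∧ (p : ℤ) ∣ n + z := by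
  obtain ⟨c₂, hc₂, hA⟩ := A_lower
  obtain ⟨c₁, hc₁, X₁, hcov⟩ := covering_hit (c₂ / 3) (by positivity)
  set c : ℝ := min (c₁ / 2) (1 / 16) with hc
  have hc0 : 0 < c := lt_min (by positivity) (by norm_num)
  have hcc : c ≤ c₁ / 2 := min_le_left _ _
  have hc16 : c ≤ 1 / 16 := min_le_right _ _
  refine ⟨c, hc0, max X₁ (Real.exp (max 10000 (1 / c))), ?_⟩
  intro X hX M P b0 hP hPX hPp S Z hS hSb hZ
  have hX1 : X₁ ≤ X := (le_max_left _ _).trans hX
  have hX2 : Real.exp (max 10000 (1 / c)) ≤ X := (le_max_right _ _).trans hX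
  have hXpos : 0 < X := (Real.exp_pos _).trans_le hX2
  set L : ℝ := Real.log X with hLdef
  have hLm : max 10000 (1 / c) ≤ L := (Real.le_log_iff_exp_le hXpos).2 hX2
  have hL : 10000 ≤ L := (le_max_left _ _).trans hLm
  have hLc : 1 / c ≤ L := (le_max_right _ _).trans hLm
  have hcL : 1 ≤ c * L := by
    rw [div_le_iff₀ hc0] at hLc
    linarith
  have hXe : X = Real.exp L := (Real.exp_log hXpos).symm
  have hXr : ∀ s : ℝ, X ^ s = Real.exp (s * L) := by
    intro s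
    rw [hXe, ← Real.exp_mul, mul_comm]
  set S' : Finset ℤ := insert 0 S with hS'
  have hS'c : (S'.card : ℝ) ≤ 2 * c * L := by
    have h1 : S'.card ≤ S.card + 1 := card_insert_le _ _
    have h2 : (S'.card : ℝ) ≤ S.card + 1 := by exact_mod_cast h1
    linarith
  have hS'b : ∀ z ∈ S', |(z : ℝ)| ≤ 2 * Real.exp (L ^ 2) := by
    intro z hz
    rw [hS', mem_insert] at hz
    rcases hz with rfl | hz
    · rw [Int.cast_zero, abs_zero]
      exact mul_nonneg (by norm_num) (Real.exp_pos _).le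
    · exact hSb z hz
  set W : ℝ := Real.exp (L ^ (1 / 20 : ℝ)) with hW
  have hW0 : 0 ≤ W := (Real.exp_pos _).le
  set A : ℤ := ⌊M⌋ with hAdef
  set B : ℤ := ⌊M⌋ + ⌊X⌋ with hBdef
  have hX0' : (0 : ℤ) ≤ ⌊X⌋ := Int.floor_nonneg.2 hXpos.le
  have hAB : A ≤ B := by linarith
  have hPr : (0 : ℝ) < P := by exact_mod_cast hP
  haveI : Nonempty {z // z ∈ S'} := ⟨⟨0, by rw [hS']; exact mem_insert_self _ _⟩⟩
  obtain ⟨a, ha, hak⟩ := hcov X hX1 ∅ {z // z ∈ S'} (by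
      rw [Fintype.card_coe]
      have : 2 * c * L ≤ c₁ * L := by nlinarith
      linarith) (fun p a k => Hit S' p a k.1) (fun p k => gg S' p k.1)
    (fun p k => ⟨gg_nonneg _ _ _, gg_le _ _ _⟩)
    (fun p _ _ a k l h1 h2 => Subtype.ext (hit_unique k.2 l.2 h1 h2))
    (fun k z x hx hxz _ => sum_cond c₂ hA L (by linarith) S' hS'b (by nlinarith) k.1 k.2 z x hx hxz)
    (AA A B P b0 Z W) (((B : ℝ) - A) / P) (1 + Z.card * (2 * W + 1)) (by
      -- size
      have h1 : ((B : ℝ) - A) = (⌊X⌋ : ℝ) := by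
        rw [hBdef, hAdef]
        push_cast
        ring
      rw [h1, le_div_iff₀ hPr]
      have h2 : X - 1 ≤ (⌊X⌋ : ℝ) := (Int.sub_one_lt_floor X).le
      have h3 : X ^ (1 / 2 : ℝ) * P ≤ X ^ (1 / 2 : ℝ) * X ^ (3 / 20 : ℝ) :=
        mul_le_mul_of_nonneg_left hPX (by positivity)
      have h4 : X ^ (1 / 2 : ℝ) * X ^ (3 / 20 : ℝ) ≤ X - 1 := by
        rw [hXr, hXr, ← Real.exp_add]
        have h5 : X = Real.exp (1 / 2 * L + 3 / 20 * L) * Real.exp (7 / 20 * L) := by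
          rw [← Real.exp_add]
          have h9 : 1 / 2 * L + 3 / 20 * L + 7 / 20 * L = L := by ring
          rw [h9]
          exact hXe
        have h6 : (2 : ℝ) ≤ Real.exp (7 / 20 * L) := by linarith [Real.add_one_le_exp (7 / 20 * L)]
        have h7 : (1 : ℝ) ≤ Real.exp (1 / 2 * L + 3 / 20 * L) := Real.one_le_exp (by linarith)
        have h8 : Real.exp (1 / 2 * L + 3 / 20 * L) * 2 ≤
            Real.exp (1 / 2 * L + 3 / 20 * L) * Real.exp (7 / 20 * L) :=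
          mul_le_mul_of_nonneg_left h6 (by linarith)
        linarith
      linarith)
    (add_nonneg zero_le_one (mul_nonneg (Nat.cast_nonneg _) (by linarith))) (by
      rw [hXr]
      refine le_trans ?_ (err_bound L hL)
      have : (Z.card : ℝ) * (2 * W + 1) ≤ L ^ 2 * (2 * W + 1) :=
        mul_le_mul_of_nonneg_right hZ (by linarith)
      linarith) (by
      intro T s _ hT
      exact distr S' A B hAB P hP b0 Z W hW0 T (fun p hp => (hT p hp).1) (by
        intro p hp hd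
        have h1 := hPp p (hT p hp).1 hd
        have h2 := (hT p hp).2.1
        linarith) (fun p => (s p).1))
  unfold AA at ha
  rw [mem_filter, mem_filter, mem_Ioc] at ha
  obtain ⟨⟨⟨ha1, ha2⟩, ha3⟩, ha4⟩ := ha
  refine ⟨a, ?_, ?_, ha3, ha4, ?_⟩
  · have h1 : M < (⌊M⌋ : ℝ) + 1 := Int.lt_floor_add_one M
    have h2 : (A : ℝ) + 1 ≤ a := by exact_mod_cast ha1
    rw [hAdef] at h2
    linarith
  · have h1 : (a : ℝ) ≤ B := by exact_mod_cast ha2
    rw [hBdef] at h1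
    push_cast at h1
    have h2 := Int.floor_le M
    have h3 := Int.floor_le X
    linarith
  · intro z hz
    obtain ⟨p, hp, _, hp2, _, hp4⟩ := hak ⟨z, by rw [hS']; exact mem_insert_of_mem hz⟩
    exact ⟨p, hp, hp2, hp4.1⟩

end Pool.Agent.NH74.AT
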