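import Pool.Agent.NH74.AT.Main

set_option autoImplicit false

/-! # Unions of arbitrary translates of the primes, additive complements of the primes -/

namespace Pool.Agent.NH74.AT

open Finset Filter

open scoped Classical

/-- the integer `m` is divisible by a prime `p ≤ w` with `p < |m|`; in particular `|m|` is not prime -/
def HasSmallFactor (w : ℝ) (m : ℤ) : Prop :=
  ∃ p : ℕ, p.Prime ∧ (p : ℝ) ≤ w ∧ (p : ℤ) ∣ m ∧ (p : ℤ) < |m|

/-- the number of elements `r ≤ N` of `R` -/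
noncomputable def count (R : Set ℕ) (N : ℕ) : ℕ := ((Finset.range (N + 1)).filter (fun r => r ∈ R)).card

lemma not_prime_of_small {w : ℝ} {m : ℤ} (h : HasSmallFactor w m) (q : ℕ) (hq : q.Prime)
    (hm : m = q) : False := by
  obtain ⟨p, hp, _, hd, hlt⟩ := h
  rw [hm] at hd hlt
  rw [Nat.abs_cast] at hlt
  have h1 : p ∣ q := by exact_mod_cast hd
  have h2 : p = q := (Nat.prime_dvd_prime_iff_eq hp hq).1 h1
  rw [h2] at hlt
  exact lt_irrefl _ hlt

/-- `exp (log² N) + y ≤ 2 exp (log² N)` -/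
theorem translates : ∃ c : ℝ, 0 < c ∧ ∃ N₀ : ℕ, ∀ N : ℕ, N₀ ≤ N → ∀ (M : ℤ) (k y : ℕ)
    (b : Fin k → ℤ), (∀ i, |(b i : ℝ)| ≤ Real.exp ((Real.log N) ^ 2)) →
    (k : ℝ) * y ≤ c * (Real.log N * Real.log (Real.log N)) →
    ∃ n : ℤ, M < n ∧ n ≤ M + N ∧ ∀ i, ∀ m : ℤ, n + b i < m → m ≤ n + b i + y →
      HasSmallFactor (Real.exp ((Real.log N) ^ (1 / 20 : ℝ))) m := by
  obtain ⟨c₁, hc₁, X₀, h⟩ := main_set
  set c := min c₁ 1 with hc
  have hc0 : 0 < c := lt_min hc₁ one_pos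
  have hcc : c ≤ c₁ := min_le_left _ _
  have hc1 : c ≤ 1 := min_le_right _ _
  refine ⟨c, hc0, ⌈max X₀ (Real.exp 10)⌉₊, ?_⟩
  intro N hN M k y b hb hky
  have hN1 : max X₀ (Real.exp 10) ≤ (N : ℝ) := (Nat.le_ceil _).trans (by exact_mod_cast hN)
  have hX0 : X₀ ≤ (N : ℝ) := (le_max_left _ _).trans hN1
  have hN10 : Real.exp 10 ≤ (N : ℝ) := (le_max_right _ _).trans hN1
  have hNpos : (0 : ℝ) < N := (Real.exp_pos _).trans_le hN10
  set L : ℝ := Real.log N with hL
  have hL10 : 10 ≤ L := (Real.le_log_iff_exp_le hNpos).2 hN10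
  have hl0 : 0 ≤ Real.log L := Real.log_nonneg (by linarith)
  have hlL : Real.log L ≤ L := by
    linarith [Real.log_le_sub_one_of_pos (show (0:ℝ) < L by linarith)]
  set Z : Finset ℤ := (Finset.univ : Finset (Fin k)).biUnion
    (fun i => (Finset.Ioc (0 : ℤ) y).image (fun j => b i + j)) with hZ
  have hZc : (Z.card : ℝ) ≤ k * y := by
    have h1 : Z.card ≤ ∑ _i : Fin k, y := by
      refine card_biUnion_le.trans (sum_le_sum (fun i _ => card_image_le.trans ?_))
      rw [Int.card_Ioc, sub_zero, Int.toNat_natCast]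
    rw [sum_const, card_univ, Fintype.card_fin, smul_eq_mul] at h1
    exact_mod_cast h1
  have hbound : c * (L * Real.log L) ≤ L ^ 2 := by
    have h1 : c * (L * Real.log L) ≤ 1 * (L * Real.log L) :=
      mul_le_mul_of_nonneg_right hc1 (mul_nonneg (by linarith) hl0)
    nlinarith
  have hexp : L ^ 2 ≤ Real.exp (L ^ 2) := by linarith [Real.add_one_le_exp (L ^ 2)]
  obtain ⟨n, hn1, hn2, hn3⟩ := h N hX0 M Z (hZc.trans (hky.trans
      (mul_le_mul_of_nonneg_right hcc (mul_nonneg (by linarith) hl0)))) (by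
    intro z hz
    rw [hZ, mem_biUnion] at hz
    obtain ⟨i, _, hz⟩ := hz
    rw [mem_image] at hz
    obtain ⟨j, hj, rfl⟩ := hz
    rw [mem_Ioc] at hj
    have hk1 : (1 : ℝ) ≤ k := by
      have : 0 < k := Fin.pos i
      exact_mod_cast this
    have hy : (y : ℝ) ≤ L ^ 2 := by
      have h1 : (1 : ℝ) * y ≤ k * y := mul_le_mul_of_nonneg_right hk1 (Nat.cast_nonneg _)
      linarith
    have hj0 : (0 : ℝ) ≤ (j : ℝ) := by exact_mod_cast hj.1.le
    have hjy : (j : ℝ) ≤ y := by exact_mod_cast hj.2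
    push_cast
    calc |(b i : ℝ) + j| ≤ |(b i : ℝ)| + |(j : ℝ)| := abs_add_le _ _
      _ ≤ Real.exp (L ^ 2) + Real.exp (L ^ 2) := by
          apply add_le_add (hb i)
          rw [abs_of_nonneg hj0]
          linarith
      _ = 2 * Real.exp (L ^ 2) := by ring)
  refine ⟨n, by exact_mod_cast hn1, by exact_mod_cast hn2, ?_⟩
  intro i m hm1 hm2
  have hmem : m - n ∈ Z := by
    rw [hZ, mem_biUnion]
    refine ⟨i, mem_univ _, ?_⟩
    rw [mem_image]
    refine ⟨m - n - b i, ?_, by ring⟩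
    rw [mem_Ioc]
    constructor <;> linarith
  obtain ⟨p, hp1, hp2, hp3, hp4⟩ := hn3 (m - n) hmem
  have he : n + (m - n) = m := by ring
  rw [he] at hp3 hp4
  exact ⟨p, hp1, hp2, hp3, hp4⟩

/-- additive complements -/
theorem complements : ∃ c : ℝ, 0 < c ∧ ∀ β : ℝ, 0 ≤ β → β ≤ 1 → ∀ R : Set ℕ,
    (∀ᶠ n : ℕ in atTop, ∃ r ∈ R, ∃ p : ℕ, p.Prime ∧ n < p + r ∧
      ((p + r : ℕ) : ℝ) ≤ n + (Real.log n) ^ β) →
    ∀ᶠ N : ℕ in atTop, c * ((Real.log N) ^ (1 - β) * Real.log (Real.log N)) ≤ count R N := by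
  obtain ⟨c₁, hc₁, X₀, h⟩ := main_set
  refine ⟨c₁ / 4, by positivity, ?_⟩
  intro β hβ0 hβ1 R hR
  obtain ⟨n₀, hn₀⟩ := eventually_atTop.1 hR
  filter_upwards [eventually_ge_atTop (⌈max (max (4 * X₀) (Real.exp 10)) (4 * n₀ + 4)⌉₊)] with N hN
  have hN1 : max (max (4 * X₀) (Real.exp 10)) (4 * n₀ + 4) ≤ (N : ℝ) :=
    (Nat.le_ceil _).trans (by exact_mod_cast hN)
  have hX0 : 4 * X₀ ≤ (N : ℝ) := ((le_max_left _ _).trans (le_max_left _ _)).trans hN1
  have hN10 : Real.exp 10 ≤ (N : ℝ) := ((le_max_right _ _).trans (le_max_left _ _)).trans hN1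
  have hNn : 4 * (n₀ : ℝ) + 4 ≤ (N : ℝ) := (le_max_right _ _).trans hN1
  have hNpos : (0 : ℝ) < N := (Real.exp_pos _).trans_le hN10
  set L : ℝ := Real.log N with hL
  have hL10 : 10 ≤ L := (Real.le_log_iff_exp_le hNpos).2 hN10
  have hL0 : 0 < L := by linarith
  set X : ℝ := N / 4 with hX
  have hXX0 : X₀ ≤ X := by rw [hX]; linarith
  have hXpos : 0 < X := by rw [hX]; linarith
  have hlog4 : Real.log 4 ≤ 2 := by
    have : Real.log 4 = 2 * Real.log 2 := by
      rw [show (4 : ℝ) = 2 ^ (2 : ℕ) by norm_num, Real.log_pow]; norm_num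
    have := Real.log_two_lt_d9
    linarith
  have hlX : Real.log X = L - Real.log 4 := by rw [hX, Real.log_div hNpos.ne' (by norm_num)]
  have hLX : L / 2 ≤ Real.log X := by rw [hlX]; linarith
  have hlog2 : Real.log (L / 2) = Real.log L - Real.log 2 := Real.log_div hL0.ne' (by norm_num)
  have hl10 : 2 * Real.log 2 ≤ Real.log L := by
    have : 2 * Real.log 2 = Real.log 4 := by
      rw [show (4 : ℝ) = 2 ^ (2 : ℕ) by norm_num, Real.log_pow]; norm_num
    rw [this]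
    exact Real.log_le_log (by norm_num) (by linarith)
  have hl2 : 0 < Real.log 2 := Real.log_pos (by norm_num)
  have hllX : Real.log L / 2 ≤ Real.log (Real.log X) := by
    have h1 : Real.log (L / 2) ≤ Real.log (Real.log X) := Real.log_le_log (by linarith) hLX
    linarith
  by_contra hcon
  push Not at hcon
  set D : Finset ℕ := (Finset.range (N + 1)).filter (fun r => r ∈ R) with hD
  have hDc : count R N = D.card := rfl
  set y : ℕ := ⌊L ^ β⌋₊ with hy
  have hLβ : 0 ≤ L ^ β := Real.rpow_nonneg hL0.le _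
  have hyL : (y : ℝ) ≤ L ^ β := Nat.floor_le hLβ
  have hLβL : L ^ β ≤ L := by
    calc L ^ β ≤ L ^ (1 : ℝ) := Real.rpow_le_rpow_of_exponent_le (by linarith) hβ1
      _ = L := Real.rpow_one _
  have hLN : L ≤ N / 4 := by
    have h1 : Real.log N = 2 * Real.log (Real.sqrt N) := by
      rw [Real.log_sqrt hNpos.le]; ring
    have h2 : Real.log (Real.sqrt N) ≤ Real.sqrt N - 1 :=
      Real.log_le_sub_one_of_pos (Real.sqrt_pos.2 hNpos)
    have h3 : (8 : ℝ) ≤ Real.sqrt N := by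
      rw [show (8 : ℝ) = Real.sqrt (8 ^ 2) by rw [Real.sqrt_sq (by norm_num)]]
      apply Real.sqrt_le_sqrt
      refine le_trans ?_ hN10
      have h4 : Real.exp 10 = Real.exp 5 ^ 2 := by rw [← Real.exp_nat_mul]; norm_num
      have h5 : (6 : ℝ) ≤ Real.exp 5 := by linarith [Real.add_one_le_exp (5 : ℝ)]
      have h6 : Real.exp 5 = Real.exp 1 ^ 5 := by rw [← Real.exp_nat_mul]; norm_num
      have h7 : (2 : ℝ) ≤ Real.exp 1 := by linarith [Real.add_one_le_exp (1 : ℝ)]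
      have h8 : (2 : ℝ) ^ 5 ≤ Real.exp 1 ^ 5 := pow_le_pow_left₀ (by norm_num) h7 5
      rw [h4, h6]
      nlinarith
    have h4 : Real.sqrt N * Real.sqrt N = N := Real.mul_self_sqrt hNpos.le
    rw [hL, h1]
    nlinarith
  set Z : Finset ℤ := D.biUnion
    (fun r => (Finset.Ioc (0 : ℤ) y).image (fun j => j - (r : ℤ))) with hZ
  have hZc : (Z.card : ℝ) ≤ D.card * y := by
    have h1 : Z.card ≤ ∑ _i ∈ D, y := by
      refine card_biUnion_le.trans (sum_le_sum (fun i _ => card_image_le.trans ?_))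
      rw [Int.card_Ioc, sub_zero, Int.toNat_natCast]
    rw [sum_const, smul_eq_mul] at h1
    exact_mod_cast h1
  have hsize : (Z.card : ℝ) ≤ c₁ * (Real.log X * Real.log (Real.log X)) := by
    have h1 : (D.card : ℝ) * y ≤ c₁ / 4 * (L ^ (1 - β) * Real.log L) * L ^ β := by
      rw [hDc] at hcon
      exact mul_le_mul hcon.le hyL (Nat.cast_nonneg _)
        (mul_nonneg (by positivity) (mul_nonneg (Real.rpow_nonneg hL0.le _) (by linarith)))
    have h2 : L ^ (1 - β) * L ^ β = L := by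
      rw [← Real.rpow_add hL0]
      norm_num
    have h3 : c₁ / 4 * (L ^ (1 - β) * Real.log L) * L ^ β = c₁ * (L / 2 * (Real.log L / 2)) := by
      calc c₁ / 4 * (L ^ (1 - β) * Real.log L) * L ^ β
          = c₁ / 4 * ((L ^ (1 - β) * L ^ β) * Real.log L) := by ring
        _ = c₁ * (L / 2 * (Real.log L / 2)) := by rw [h2]; ring
    have h4 : L / 2 * (Real.log L / 2) ≤ Real.log X * Real.log (Real.log X) :=
      mul_le_mul hLX hllX (by linarith) (by linarith)
    have h5 := mul_le_mul_of_nonneg_left h4 hc₁.le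
    linarith
  have hexpN : (N : ℝ) ≤ Real.exp ((Real.log X) ^ 2) := by
    have h1 : (N : ℝ) = Real.exp L := (Real.exp_log hNpos).symm
    rw [h1]
    apply Real.exp_le_exp.2
    nlinarith
  obtain ⟨n, hn1, hn2, hn3⟩ := h X hXX0 X Z hsize (by
    intro z hz
    rw [hZ, mem_biUnion] at hz
    obtain ⟨r, hr, hz⟩ := hz
    rw [mem_image] at hz
    obtain ⟨j, hj, rfl⟩ := hz
    rw [mem_Ioc] at hj
    rw [hD, mem_filter, Finset.mem_range] at hr
    have hr1 : (r : ℝ) ≤ N := by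
      have : r ≤ N := by omega
      exact_mod_cast this
    have hr0 : (0 : ℝ) ≤ r := Nat.cast_nonneg _
    have hj0 : (0 : ℝ) ≤ (j : ℝ) := by exact_mod_cast hj.1.le
    have hjy : (j : ℝ) ≤ y := by exact_mod_cast hj.2
    push_cast
    rw [abs_le]
    constructor <;> linarith)
  -- the contradiction
  have hn0 : 0 ≤ n := by
    have : (0 : ℝ) ≤ (n : ℝ) := by linarith
    exact_mod_cast this
  obtain ⟨n', rfl⟩ := Int.eq_ofNat_of_zero_le hn0
  rw [Int.cast_natCast] at hn1 hn2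
  have hnn : n₀ ≤ n' := by
    have : (n₀ : ℝ) ≤ n' := by linarith
    exact_mod_cast this
  obtain ⟨r, hrR, p, hp, hpr1, hpr2⟩ := hn₀ n' hnn
  have hn'0 : (0 : ℝ) < n' := by linarith
  have hn'N : (n' : ℝ) ≤ N := by linarith
  have hlogn : Real.log n' ≤ L := Real.log_le_log hn'0 hn'N
  have hlogn0 : 0 ≤ Real.log n' := by
    apply Real.log_nonneg
    have : 0 < n' := by exact_mod_cast hn'0
    exact_mod_cast this
  have hpow : (Real.log n') ^ β ≤ L ^ β := Real.rpow_le_rpow hlogn0 hlogn hβ0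
  have hj : ((p + r - n' : ℕ) : ℝ) ≤ L ^ β := by
    rw [Nat.cast_sub hpr1.le]
    linarith
  have hjy : p + r - n' ≤ y := Nat.le_floor hj
  have hrN : r ≤ N := by
    have h1 : (r : ℝ) ≤ ((p + r : ℕ) : ℝ) := by
      have : r ≤ p + r := Nat.le_add_left _ _
      exact_mod_cast this
    have h2 : (r : ℝ) ≤ N := by linarith
    exact_mod_cast h2
  have hz : (((p + r - n' : ℕ) : ℤ) - (r : ℤ)) ∈ Z := by
    rw [hZ, mem_biUnion]
    refine ⟨r, ?_, ?_⟩
    · rw [hD, mem_filter, Finset.mem_range]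
      exact ⟨by omega, hrR⟩
    · rw [mem_image]
      refine ⟨((p + r - n' : ℕ) : ℤ), ?_, rfl⟩
      rw [mem_Ioc]
      constructor
      · have : 0 < p + r - n' := by omega
        exact_mod_cast this
      · exact_mod_cast hjy
  obtain ⟨q, hq1, hq2, hq3, hq4⟩ := hn3 _ hz
  have he : (n' : ℤ) + (((p + r - n' : ℕ) : ℤ) - (r : ℤ)) = p := by
    rw [Nat.cast_sub hpr1.le]
    push_cast
    ring
  exact not_prime_of_small (m := (n' : ℤ) + (((p + r - n' : ℕ) : ℤ) - (r : ℤ)))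
    ⟨q, hq1, hq2, hq3, hq4⟩ p hp he

end Pool.Agent.NH74.AT
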