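import Pool.Agent.NH74.AT.Crit3
import Pool.Agent.H256R2.SC.R

set_option autoImplicit false

/-! # Prime-free translates of arbitrary sets of `c log X log log X` integers -/

namespace Pool.Agent.NH74.AT

open Finset Filter
open Pool.Agent.H256R2.SC (greedy_all)

open scoped Classical

/-- the small primes -/
noncomputable def smp (X : ℝ) : Finset ℕ := (Finset.Icc 1 ⌊Real.log X / 10⌋₊).filter Nat.Prime

lemma prod_smp (X : ℝ) : ∏ p ∈ smp X, p = primorial ⌊Real.log X / 10⌋₊ := by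
  unfold smp primorial
  apply prod_congr _ (fun _ _ => rfl)
  ext p
  simp only [mem_filter, mem_Icc, mem_range]
  constructor
  · rintro ⟨h1, h2⟩
    exact ⟨by omega, h2⟩
  · rintro ⟨h1, h2⟩
    exact ⟨⟨h2.one_lt.le, by omega⟩, h2⟩

theorem primorial_le_rpow {X : ℝ} (hX : 1 ≤ X) :
    (primorial ⌊Real.log X / 10⌋₊ : ℝ) ≤ X ^ (3 / 20 : ℝ) := by
  have h0 : 0 ≤ Real.log X := Real.log_nonneg hX
  have h1 : (primorial ⌊Real.log X / 10⌋₊ : ℝ) ≤ (4 : ℝ) ^ ⌊Real.log X / 10⌋₊ := by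
    exact_mod_cast primorial_le_four_pow _
  refine h1.trans ?_
  rw [← Real.rpow_natCast]
  have h2 : (4 : ℝ) ^ ((⌊Real.log X / 10⌋₊ : ℕ) : ℝ) ≤ (4 : ℝ) ^ (Real.log X / 10) :=
    Real.rpow_le_rpow_of_exponent_le (by norm_num) (Nat.floor_le (by positivity))
  refine h2.trans ?_
  rw [Real.rpow_def_of_pos (by norm_num : (0 : ℝ) < 4),
    Real.rpow_def_of_pos (by linarith : (0 : ℝ) < X)]
  apply Real.exp_le_exp.2
  have h3 : Real.log 4 ≤ 3 / 2 := by
    have : Real.log 4 = 2 * Real.log 2 := by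
      rw [show (4 : ℝ) = 2 ^ (2 : ℕ) by norm_num, Real.log_pow]; norm_num
    have := Real.log_two_lt_d9
    linarith
  nlinarith

lemma log_le_rpow : ∃ L₁ : ℝ, ∀ L : ℝ, L₁ ≤ L → Real.log L ≤ L ^ (1 / 20 : ℝ) := by
  have h := (isLittleO_log_rpow_atTop (show (0 : ℝ) < 1 / 20 by norm_num)).def one_pos
  obtain ⟨L₁, h1⟩ := eventually_atTop.1 h
  refine ⟨max L₁ 1, fun L hL => ?_⟩
  have h2 := h1 L ((le_max_left _ _).trans hL)
  have h3 : 1 ≤ L := (le_max_right _ _).trans hL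
  rw [Real.norm_eq_abs, Real.norm_eq_abs, abs_of_nonneg (Real.log_nonneg h3),
    abs_of_nonneg (Real.rpow_nonneg (by linarith) _)] at h2
  linarith

/-- `Z` has a translate in `(M, M + X]` all of whose members have a small prime factor -/
theorem main_set : ∃ c : ℝ, 0 < c ∧ ∃ X₀ : ℝ, ∀ X : ℝ, X₀ ≤ X → ∀ M : ℝ,
    ∀ Z : Finset ℤ, (Z.card : ℝ) ≤ c * (Real.log X * Real.log (Real.log X)) →
    (∀ z ∈ Z, |(z : ℝ)| ≤ 2 * Real.exp ((Real.log X) ^ 2)) →
    ∃ n : ℤ, M < n ∧ (n : ℝ) ≤ M + X ∧ ∀ z ∈ Z, ∃ p : ℕ, p.Prime ∧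
      (p : ℝ) ≤ Real.exp ((Real.log X) ^ (1 / 20 : ℝ)) ∧ (p : ℤ) ∣ n + z ∧ (p : ℤ) < |n + z| := by
  obtain ⟨c₁, hc₁, X₁, hcr⟩ := crit
  obtain ⟨C, hC0, hC⟩ := Pool.Agent.H256R2.SC.G3.mertens_prod
  obtain ⟨L₁, hL₁⟩ := log_le_rpow
  set c : ℝ := min 1 (c₁ * Real.exp (-C) / 2) with hc
  have hc0 : 0 < c := lt_min one_pos (by positivity)
  have hc1 : c ≤ 1 := min_le_left _ _
  have hc2 : 2 * c * Real.exp C ≤ c₁ := by
    have h1 : c ≤ c₁ * Real.exp (-C) / 2 := min_le_right _ _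
    have h2 : Real.exp (-C) * Real.exp C = 1 := by rw [← Real.exp_add]; simp
    have h3 := mul_le_mul_of_nonneg_right h1 (Real.exp_pos C).le
    nlinarith
  refine ⟨c, hc0, max X₁ (Real.exp (max 10000 L₁)), ?_⟩
  intro X hX M Z hZ hZb
  have hX1 : X₁ ≤ X := (le_max_left _ _).trans hX
  have hX2 : Real.exp (max 10000 L₁) ≤ X := (le_max_right _ _).trans hX
  have hXpos : 0 < X := (Real.exp_pos _).trans_le hX2
  set L : ℝ := Real.log X with hLdef
  have hLm : max 10000 L₁ ≤ L := (Real.le_log_iff_exp_le hXpos).2 hX2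
  have hL : 10000 ≤ L := (le_max_left _ _).trans hLm
  have hLL : L₁ ≤ L := (le_max_right _ _).trans hLm
  obtain ⟨s1, s2, s3, s4⟩ := Pool.Agent.H256R2.SC.G3.sizes L (by linarith)
  set l : ℝ := Real.log L with hl
  set Y : ℕ := ⌊L / 10⌋₊ with hY
  have hYL : (Y : ℝ) ≤ L / 10 := Nat.floor_le (by linarith)
  have hsm : smp X = (Finset.Icc 1 Y).filter Nat.Prime := rfl
  have hsp : ∀ p ∈ smp X, p.Prime := fun p hp => by
    rw [hsm, mem_filter] at hp
    exact hp.2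
  have hspY : ∀ p ∈ smp X, (p : ℝ) ≤ L / 10 := fun p hp => by
    rw [hsm, mem_filter, mem_Icc] at hp
    have : (p : ℝ) ≤ Y := by exact_mod_cast hp.1.2
    linarith
  -- shift to natural numbers
  obtain ⟨T, hT⟩ : ∃ T : ℕ, 2 * Real.exp (L ^ 2) ≤ T := exists_nat_ge _
  have hpos : ∀ z ∈ Z, 0 ≤ z + (T : ℤ) := by
    intro z hz
    have h1 := (abs_le.1 (hZb z hz)).1
    have h2 : (0 : ℝ) ≤ z + T := by linarith
    exact_mod_cast h2
  set R : Finset ℕ := Z.image (fun z : ℤ => (z + (T : ℤ)).toNat) with hR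
  obtain ⟨b, hb1, hb2⟩ := greedy_all (smp X) hsp R
  -- the survivors
  set S : Finset ℤ := Z.filter (fun z : ℤ => ∀ p ∈ smp X, ¬ (z + (T : ℤ)).toNat ≡ b p [MOD p]) with hS
  have hinj : Set.InjOn (fun z : ℤ => (z + (T : ℤ)).toNat) (Z : Set ℤ) := by
    intro z hz w hw hzw
    have h1 := hpos z hz
    have h2 := hpos w hw
    simp only at hzw
    omega
  have hScard : (S.card : ℝ) ≤ c₁ * L := by
    have h1 : S.card ≤ (R.filter (fun k => ∀ p ∈ smp X, ¬ k ≡ b p [MOD p])).card := by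
      rw [← card_image_of_injOn (s := S) (f := fun z : ℤ => (z + (T : ℤ)).toNat)
        (hinj.mono (by rw [hS]; exact_mod_cast filter_subset _ _))]
      apply card_le_card
      intro k hk
      rw [mem_image] at hk
      obtain ⟨z, hz, rfl⟩ := hk
      rw [hS, mem_filter] at hz
      rw [mem_filter]
      exact ⟨by rw [hR]; exact mem_image_of_mem _ hz.1, hz.2⟩
    have h2 : (R.card : ℝ) ≤ Z.card := by exact_mod_cast card_image_le
    have h3 := hC Y s1 ∅ (by simp)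
    simp only [sdiff_empty, prod_empty, mul_one] at h3
    rw [← hsm] at h3
    have hl0 : 0 < l := by linarith
    have h4 : Real.exp C / Real.log (Y : ℕ) ≤ 2 * Real.exp C / l := by
      rw [div_le_div_iff₀ (by linarith) hl0]
      nlinarith [Real.exp_pos C]
    have hprod0 : 0 ≤ ∏ p ∈ smp X, (1 - 1 / (p : ℝ)) := by
      apply prod_nonneg
      intro p hp
      have : (1 : ℝ) ≤ p := by exact_mod_cast (hsp p hp).one_lt.le
      rw [sub_nonneg, div_le_one (by linarith)]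
      exact this
    calc (S.card : ℝ) ≤ ((R.filter (fun k => ∀ p ∈ smp X, ¬ k ≡ b p [MOD p])).card : ℝ) := by
          exact_mod_cast h1
      _ ≤ R.card * ∏ p ∈ smp X, (1 - 1 / (p : ℝ)) := hb2
      _ ≤ (c * (L * l)) * (2 * Real.exp C / l) :=
          mul_le_mul (h2.trans hZ) (h3.trans h4) hprod0 (by positivity)
      _ = (2 * c * Real.exp C) * L := by
          field_simp
      _ ≤ c₁ * L := mul_le_mul_of_nonneg_right hc2 (by linarith)
  -- the class modulo the small primes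
  obtain ⟨e, he⟩ : ∃ e : ℕ → ℕ, ∀ p, e p = (((b p : ℤ) - T) % (p : ℤ)).toNat := ⟨_, fun _ => rfl⟩
  obtain ⟨b0, -, hb0⟩ := Pool.Agent.H256R2.SC.G3.crt_small (smp X) hsp e
  set P : ℕ := ∏ p ∈ smp X, p with hPdef
  have hPpos : 0 < P := prod_pos (fun p hp => (hsp p hp).pos)
  have hX1' : 1 ≤ X := by
    have h1 : Real.exp 10000 ≤ Real.exp (max 10000 L₁) := Real.exp_le_exp.2 (le_max_left _ _)
    have := Real.add_one_le_exp (10000 : ℝ)
    linarith
  obtain ⟨n, hn1, hn2, hn3, hn4, hn5⟩ := hcr X hX1 M P b0 hPpos (by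
      rw [hPdef, prod_smp]
      exact primorial_le_rpow hX1') (by
      intro p hp hd
      rw [hPdef, (Nat.Prime.prime hp).dvd_finset_prod_iff] at hd
      obtain ⟨q, hq, hdq⟩ := hd
      have : p = q := (Nat.prime_dvd_prime_iff_eq hp (hsp q hq)).1 hdq
      rw [this]
      have h1 := hspY q hq
      change (q : ℝ) ≤ L ^ 3
      nlinarith [sq_nonneg L]) S Z hScard (by
      intro z hz
      rw [hS, mem_filter] at hz
      exact hZb z hz.1) (by
      refine hZ.trans ?_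
      change c * (L * l) ≤ L ^ 2
      have h1 : c * (L * l) ≤ 1 * (L * l) := mul_le_mul_of_nonneg_right hc1 (by positivity)
      nlinarith)
  refine ⟨n, hn1, hn2, fun z hz => ?_⟩
  have hbig := hn4 z hz
  by_cases hzS : z ∈ S
  · obtain ⟨p, hp1, hp2, hp3⟩ := hn5 z hzS
    refine ⟨p, hp1, hp2, hp3, ?_⟩
    have h1 : (p : ℝ) < |((n + z : ℤ) : ℝ)| := hp2.trans_lt hbig
    exact_mod_cast h1
  · rw [hS, mem_filter] at hzS
    push Not at hzS
    obtain ⟨p, hp, hmod⟩ := hzS hz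
    have hpp := hsp p hp
    have h1 : (p : ℤ) ∣ n - b0 := (Int.natCast_dvd_natCast.2 (dvd_prod_of_mem _ hp)).trans hn3
    have h2 : (p : ℤ) ∣ (b0 : ℤ) + e p := by exact_mod_cast hb0 p hp
    have h3 : (p : ℤ) ∣ (e p : ℤ) - ((b p : ℤ) - T) := by
      rw [he]
      exact toNat_mod _ _ hpp.pos
    have h4 : (p : ℤ) ∣ (z + (T : ℤ)) - (b p : ℤ) := by
      have h5 := (Nat.modEq_iff_dvd.1 hmod.symm)
      rw [Int.toNat_of_nonneg (hpos z hz)] at h5
      exact h5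
    have h5 : (p : ℤ) ∣ n + z := by
      have h6 : n + z = (n - b0) + ((b0 : ℤ) + e p) - ((e p : ℤ) - ((b p : ℤ) - T)) +
          ((z + (T : ℤ)) - (b p : ℤ)) := by ring
      rw [h6]
      exact dvd_add (dvd_sub (dvd_add h1 h2) h3) h4
    have h7 : (p : ℝ) ≤ Real.exp (L ^ (1 / 20 : ℝ)) := by
      have h8 := hspY p hp
      have hL0 : 0 < L := by linarith
      have h9 : L ≤ Real.exp (L ^ (1 / 20 : ℝ)) := by
        rw [← Real.log_le_iff_le_exp hL0]
        exact hL₁ L hLL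
      linarith
    refine ⟨p, hpp, h7, h5, ?_⟩
    have h8 : (p : ℝ) < |((n + z : ℤ) : ℝ)| := h7.trans_lt hbig
    exact_mod_cast h8

end Pool.Agent.NH74.AT
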